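import Mathlib
import Pool.Agent.H.MP_b004e2_gt.A

namespace Pool.Agent.Results.MP_b004e2_gt.NoInvariant

/-- the group of self-homeomorphisms of `M` leaving `f` invariant -/
def levelGroup {M : Type} [TopologicalSpace M] (f : M → ℝ) : Subgroup (M ≃ₜ M) where
  carrier := {T | ∀ p, f (T p) = f p}
  one_mem' := fun _ => rfl
  mul_mem' := fun {S T} hS hT p => (hS (T p)).trans (hT p)
  inv_mem' := fun {T} hT p => by
    have h := hT (T.symm p)
    rw [T.apply_symm_apply] at h
    exact h.symm

open Pool.Agent.H.MP_b004e2_gt in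
theorem result (n : ℕ) (hn : 1 ≤ n) :
    ∃ (M N : Type) (_ : TopologicalSpace M) (_ : TopologicalSpace N),
      T2Space M ∧ SecondCountableTopology M ∧
      Nonempty (ChartedSpace (EuclideanSpace ℝ (Fin n)) M) ∧
      T2Space N ∧ SecondCountableTopology N ∧
      Nonempty (ChartedSpace (EuclideanSpace ℝ (Fin n)) N) ∧
      ConnectedSpace M ∧ Nonempty N ∧ IsEmpty (M ≃ₜ N) ∧
      ∀ f₀ : M → ℝ, Continuous f₀ →
        ∃ f : N → ℝ, Continuous f ∧ Nonempty (levelGroup f₀ ≃* levelGroup f) := by
  have : Fact (Module.finrank ℝ (EuclideanSpace ℝ (Fin (n + 1))) = n + 1) := ⟨by simp⟩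
  have : Nonempty (Fin n) := ⟨⟨0, hn⟩⟩
  have hc : IsConnected (Metric.sphere (0 : EuclideanSpace ℝ (Fin (n + 1))) 1) := by
    refine isConnected_sphere ?_ _ zero_le_one
    rw [← Module.finrank_eq_rank, finrank_euclideanSpace_fin]
    exact_mod_cast Nat.succ_le_succ hn
  have : ConnectedSpace (Metric.sphere (0 : EuclideanSpace ℝ (Fin (n + 1))) 1) :=
    isConnected_iff_connectedSpace.1 hc
  refine ⟨EuclideanSpace ℝ (Fin n),
    EuclideanSpace ℝ (Fin n) ⊕ Metric.sphere (0 : EuclideanSpace ℝ (Fin (n + 1))) 1,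
    inferInstance, inferInstance, inferInstance, inferInstance, ⟨inferInstance⟩,
    inferInstance, inferInstance, ⟨inferInstance⟩, inferInstance, inferInstance, not_homeo, ?_⟩
  intro f₀ hf₀
  obtain ⟨g, hg⟩ := exists_rigid (K := Metric.sphere (0 : EuclideanSpace ℝ (Fin (n + 1))) 1)
  refine ⟨Sum.elim f₀ g, hf₀.sumElim g.continuous, ⟨?_⟩⟩
  let φ : levelGroup f₀ →* levelGroup (Sum.elim f₀ g) :=
    { toFun := fun S => ⟨S.1.sumCongr (Homeomorph.refl _), by
        rintro (p | p)
        · exact S.2 p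
        · rfl⟩
      map_one' := by
        ext1
        ext1 p
        rcases p with p | p <;> rfl
      map_mul' := fun S T => by
        ext1
        ext1 p
        rcases p with p | p <;> rfl }
  refine MulEquiv.ofBijective φ ⟨?_, ?_⟩
  · intro S T h
    ext1
    ext1 p
    have h1 : (φ S).1 (Sum.inl p) = (φ T).1 (Sum.inl p) := by rw [h]
    exact Sum.inl_injective h1
  · rintro ⟨T, hT⟩
    obtain ⟨S, R, hS, hR⟩ := split T
    have hR1 : ∀ k, R k = k := hg R fun k => by
      have h := hT (Sum.inr k)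
      rw [← hR] at h
      exact h
    refine ⟨⟨S, fun p => ?_⟩, ?_⟩
    · have h := hT (Sum.inl p)
      rw [← hS] at h
      exact h
    · ext1
      ext1 p
      rcases p with p | p
      · exact hS p
      · have h := hR p
        rw [hR1] at h
        exact h

end Pool.Agent.Results.MP_b004e2_gt.NoInvariant
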